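import Mathlib

/-!
Height bounders for Diophantine equations with few solutions.

A Diophantine equation in `n` unknowns over `ℕ` is given by `n` and the list of the monomials of an
integer polynomial.  The file shows that the questions for all finite `κ` are one question: if some
algorithm bounds the heights of the solutions of every equation having exactly `m` or exactly `m'`
solutions, for one pair `m < m'`, then there is one algorithm which bounds the heights of the
solutions of `D` when it is given `D` and any upper bound `k` of the number of solutions of `D`.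

* From `D` one computes the equation `E D j` of the increasing chains of `j` solutions of `D`
  (increasing with respect to an injective polynomial code, with unique auxiliary unknowns), which
  has no solution if `D` has fewer than `j` solutions and exactly one if `D` has exactly `j`.
  Running through `j = k, k - 1, …` with a bounder for at most one solution finds all solutions.
* From `D` one computes the equation `T m d D` with `m + d * |Sol D|` solutions.
-/

set_option autoImplicit false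

namespace Pool.Agent.Results.MP_4a2a1b_lc.FiniteCollapse

/-! ### the definitions used in the statement -/

/-- An integer polynomial in finitely many unknowns, as the list of its monomials: the pair
`(c, [e_0, e_1, …])` is the monomial `c * x_0 ^ e_0 * x_1 ^ e_1 * …`. -/
abbrev Poly := List (ℤ × List ℕ)

/-- A Diophantine equation `D = 0`: the number `n` of unknowns and the polynomial `D`. -/
abbrev DEq := ℕ × Poly

/-- The value at the point `x` of the polynomial in `n` unknowns with the monomials `p`. -/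
def value (n : ℕ) (p : Poly) (x : Fin n → ℕ) : ℤ :=
  (p.map fun m => m.1 * ∏ i : Fin n, (x i : ℤ) ^ m.2.getD i 0).sum

/-- The set of solutions in natural numbers. -/
def Sol (D : DEq) : Set (Fin D.1 → ℕ) := {x | value D.1 D.2 x = 0}

/-- The height of a tuple: its largest entry. -/
def height {n : ℕ} (x : Fin n → ℕ) : ℕ := Finset.univ.sup x

/-- The algorithm `B` halts on `D` and outputs an integer larger than the height of every
solution of `D`. -/
def BoundsAt (B : DEq →. ℤ) (D : DEq) : Prop := ∃ b ∈ B D, ∀ x ∈ Sol D, (height x : ℤ) < b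

/-- `B` is a `κ`-height bounder: an algorithm that bounds the heights of the solutions of every
Diophantine equation with fewer than `κ` solutions. -/
def HeightBounder (κ : ℕ∞) (B : DEq →. ℤ) : Prop :=
  Partrec B ∧ ∀ D : DEq, (Sol D).encard < κ → BoundsAt B D

/-- `B` is an algorithm that bounds the heights of the solutions of every Diophantine equation
whose number of solutions is (finite and) an element of `K`. -/
def Bounder (K : Set ℕ) (B : DEq →. ℤ) : Prop :=
  Partrec B ∧ ∀ D : DEq, (∃ k ∈ K, (Sol D).encard = k) → BoundsAt B D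

open Primrec
/-! ### integers -/

theorem enc_ofNat (n : ℕ) : Encodable.encode (n : ℤ) = 2 * n := rfl

theorem enc_negSucc (n : ℕ) : Encodable.encode (Int.negSucc n) = 2 * n + 1 := rfl

theorem prim_toNat : Primrec Int.toNat := by
  have h : Primrec fun z : ℤ => if Encodable.encode z % 2 = 0 then Encodable.encode z / 2 else 0 :=
    Primrec.ite (Primrec.eq.comp (Primrec.nat_mod.comp Primrec.encode (Primrec.const 2))
      (Primrec.const 0)) (Primrec.nat_div.comp Primrec.encode (Primrec.const 2)) (Primrec.const 0)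
  refine h.of_eq fun z => ?_
  cases z with
  | ofNat n =>
    rw [Int.ofNat_eq_natCast, enc_ofNat]
    simp
  | negSucc n =>
    rw [enc_negSucc]
    simp [Nat.add_mod]

theorem prim_natCast : Primrec (fun n : ℕ => (n : ℤ)) := by
  have h : Primrec fun n : ℕ => Denumerable.ofNat ℤ (2 * n) :=
    (Primrec.ofNat ℤ).comp Primrec.nat_double
  refine h.of_eq fun n => ?_
  have : Denumerable.ofNat ℤ (Encodable.encode (n : ℤ)) = (n : ℤ) := Denumerable.ofNat_encode _
  rwa [enc_ofNat] at this

theorem prim_negSucc : Primrec Int.negSucc := by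
  have h : Primrec fun n : ℕ => Denumerable.ofNat ℤ (2 * n + 1) :=
    (Primrec.ofNat ℤ).comp Primrec.nat_double_succ
  refine h.of_eq fun n => ?_
  have : Denumerable.ofNat ℤ (Encodable.encode (Int.negSucc n)) = Int.negSucc n :=
    Denumerable.ofNat_encode _
  rwa [enc_negSucc] at this

theorem prim_subNatNat : Primrec₂ (fun a b : ℕ => (a : ℤ) - b) := by
  have h : Primrec fun p : ℕ × ℕ =>
      if p.2 ≤ p.1 then ((p.1 - p.2 : ℕ) : ℤ) else Int.negSucc (p.2 - p.1 - 1) :=
    Primrec.ite (Primrec.nat_le.comp Primrec.snd Primrec.fst)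
      (prim_natCast.comp (Primrec.nat_sub.comp Primrec.fst Primrec.snd))
      (prim_negSucc.comp (Primrec.nat_sub.comp (Primrec.nat_sub.comp Primrec.snd Primrec.fst)
        (Primrec.const 1)))
  refine h.of_eq fun p => ?_
  split_ifs with hp
  · simp [Nat.cast_sub hp]
  · rw [Int.negSucc_eq]
    push Not at hp
    have : ((p.2 - p.1 - 1 : ℕ) : ℤ) = (p.2 : ℤ) - p.1 - 1 := by omega
    rw [this]; ring

theorem prim_neg : Primrec (fun z : ℤ => -z) := by
  have h1 : Primrec fun z : ℤ => if Encodable.encode z % 2 = 0 then 0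
      else Encodable.encode z / 2 + 1 :=
    Primrec.ite (Primrec.eq.comp (Primrec.nat_mod.comp Primrec.encode (Primrec.const 2))
      (Primrec.const 0)) (Primrec.const 0)
      (Primrec.succ.comp (Primrec.nat_div.comp Primrec.encode (Primrec.const 2)))
  have h2 : Primrec fun z : ℤ => (((if Encodable.encode z % 2 = 0 then 0
      else Encodable.encode z / 2 + 1 : ℕ) : ℤ) - (z.toNat : ℤ)) :=
    prim_subNatNat.comp h1 prim_toNat
  refine h2.of_eq fun z => ?_
  cases z with
  | ofNat n =>
    rw [Int.ofNat_eq_natCast, enc_ofNat]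
    simp
  | negSucc n =>
    rw [enc_negSucc]
    have h3 : (2 * n + 1) % 2 ≠ 0 := by omega
    have h4 : (2 * n + 1) / 2 = n := by omega
    rw [if_neg h3, h4]
    simp [Int.neg_negSucc]

theorem prim_add : Primrec₂ (fun a b : ℤ => a + b) := by
  have h : Primrec fun p : ℤ × ℤ => ((p.1.toNat + p.2.toNat : ℕ) : ℤ) -
      (((-p.1).toNat + (-p.2).toNat : ℕ) : ℤ) :=
    prim_subNatNat.comp
      (Primrec.nat_add.comp (prim_toNat.comp Primrec.fst) (prim_toNat.comp Primrec.snd))
      (Primrec.nat_add.comp (prim_toNat.comp (prim_neg.comp Primrec.fst))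
        (prim_toNat.comp (prim_neg.comp Primrec.snd)))
  refine h.of_eq fun p => ?_
  push_cast
  omega

theorem prim_mul : Primrec₂ (fun a b : ℤ => a * b) := by
  have h : Primrec fun p : ℤ × ℤ =>
      ((p.1.toNat * p.2.toNat + (-p.1).toNat * (-p.2).toNat : ℕ) : ℤ) -
      ((p.1.toNat * (-p.2).toNat + (-p.1).toNat * p.2.toNat : ℕ) : ℤ) := by
    have a1 : Primrec fun p : ℤ × ℤ => p.1.toNat := prim_toNat.comp Primrec.fst
    have a2 : Primrec fun p : ℤ × ℤ => p.2.toNat := prim_toNat.comp Primrec.snd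
    have b1 : Primrec fun p : ℤ × ℤ => (-p.1).toNat := prim_toNat.comp (prim_neg.comp Primrec.fst)
    have b2 : Primrec fun p : ℤ × ℤ => (-p.2).toNat := prim_toNat.comp (prim_neg.comp Primrec.snd)
    exact prim_subNatNat.comp
      (Primrec.nat_add.comp (Primrec.nat_mul.comp a1 a2) (Primrec.nat_mul.comp b1 b2))
      (Primrec.nat_add.comp (Primrec.nat_mul.comp a1 b2) (Primrec.nat_mul.comp b1 a2))
  refine h.of_eq fun p => ?_
  have e1 : p.1 = (p.1.toNat : ℤ) - ((-p.1).toNat : ℤ) := by omega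
  have e2 : p.2 = (p.2.toNat : ℤ) - ((-p.2).toNat : ℤ) := by omega
  conv_rhs => rw [e1, e2]
  push_cast
  ring

/-! ### lists -/

theorem prim_replicate : Primrec (fun n : ℕ => List.replicate n 0) := by
  have h : Primrec fun n : ℕ => (List.range n).map fun _ => (0 : ℕ) :=
    Primrec.list_map Primrec.list_range (Primrec.const 0).to₂
  refine h.of_eq fun n => ?_
  simp

theorem prim_pow : Primrec₂ (fun a b : ℕ => a ^ b) :=
  Primrec₂.unpaired'.1 Nat.Primrec.pow

theorem prim_prod : Primrec (List.prod : List ℕ → ℕ) := by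
  have h : Primrec fun l : List ℕ => l.foldr (fun b s => b * s) 1 :=
    Primrec.list_foldr (h := fun _ p => p.1 * p.2) Primrec.id (Primrec.const 1)
      (Primrec.nat_mul.comp (Primrec.fst.comp Primrec.snd) (Primrec.snd.comp Primrec.snd)).to₂
  refine h.of_eq fun l => ?_
  simp [List.prod_eq_foldr]

theorem prim_sum : Primrec (List.sum : List ℤ → ℤ) := by
  have h : Primrec fun l : List ℤ => l.foldr (fun b s => b + s) 0 :=
    Primrec.list_foldr (h := fun _ p => p.1 + p.2) Primrec.id (Primrec.const 0)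
      (prim_add.comp (Primrec.fst.comp Primrec.snd) (Primrec.snd.comp Primrec.snd)).to₂
  refine h.of_eq fun l => ?_
  simp [List.sum_eq_foldr]


/-! ### polynomials as lists -/

def addExp (a b : List ℕ) : List ℕ :=
  (List.range (max a.length b.length)).map fun i => a.getD i 0 + b.getD i 0

def pmul (p q : Poly) : Poly :=
  p.flatMap fun a => q.map fun b => (a.1 * b.1, addExp a.2 b.2)

def pneg (p : Poly) : Poly := p.map fun a => (-a.1, a.2)

def pconst (c : ℤ) : Poly := [(c, [])]

def pvar (i : ℕ) : Poly := [(1, List.replicate i 0 ++ [1])]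

def psq (p : Poly) : Poly := pmul p p

def shift (t n : ℕ) (p : Poly) : Poly :=
  p.map fun a => (a.1, List.replicate t 0 ++ a.2.take n)

theorem prim_addExp : Primrec₂ addExp := by
  have h1 : Primrec fun p : List ℕ × List ℕ => List.range (max p.1.length p.2.length) :=
    Primrec.list_range.comp (Primrec.nat_max.comp (Primrec.list_length.comp Primrec.fst)
      (Primrec.list_length.comp Primrec.snd))
  have h2 : Primrec₂ fun (p : List ℕ × List ℕ) (i : ℕ) => p.1.getD i 0 + p.2.getD i 0 :=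
    Primrec.nat_add.comp
      ((Primrec.list_getD 0).comp (Primrec.fst.comp Primrec.fst) Primrec.snd)
      ((Primrec.list_getD 0).comp (Primrec.snd.comp Primrec.fst) Primrec.snd)
  exact Primrec.list_map h1 h2

theorem prim_pmul : Primrec₂ pmul := by
  have h2 : Primrec fun q : ((Poly × Poly) × (ℤ × List ℕ)) × (ℤ × List ℕ) =>
      (q.1.2.1 * q.2.1, addExp q.1.2.2 q.2.2) :=
    Primrec.pair
      (prim_mul.comp (Primrec.fst.comp (Primrec.snd.comp Primrec.fst))
        (Primrec.fst.comp Primrec.snd))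
      (prim_addExp.comp (Primrec.snd.comp (Primrec.snd.comp Primrec.fst))
        (Primrec.snd.comp Primrec.snd))
  have h3 : Primrec fun q : (Poly × Poly) × (ℤ × List ℕ) =>
      q.1.2.map fun b => (q.2.1 * b.1, addExp q.2.2 b.2) :=
    Primrec.list_map (Primrec.snd.comp Primrec.fst) h2.to₂
  exact Primrec.list_flatMap Primrec.fst h3.to₂

theorem prim_pneg : Primrec pneg :=
  Primrec.list_map Primrec.id
    (Primrec.pair (prim_neg.comp (Primrec.fst.comp Primrec.snd))
      (Primrec.snd.comp Primrec.snd)).to₂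

theorem prim_pconst : Primrec pconst :=
  Primrec.list_cons.comp (Primrec.pair Primrec.id (Primrec.const [])) (Primrec.const [])

theorem prim_pvar : Primrec pvar :=
  Primrec.list_cons.comp (Primrec.pair (Primrec.const 1)
    (Primrec.list_append.comp prim_replicate (Primrec.const [1]))) (Primrec.const [])

theorem prim_psq : Primrec psq := prim_pmul.comp Primrec.id Primrec.id

theorem prim_shift : Primrec fun q : (ℕ × ℕ) × Poly => shift q.1.1 q.1.2 q.2 := by
  have h : Primrec fun q : ((ℕ × ℕ) × Poly) × (ℤ × List ℕ) =>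
      (q.2.1, List.replicate q.1.1.1 0 ++ q.2.2.take q.1.1.2) :=
    Primrec.pair (Primrec.fst.comp Primrec.snd)
      (Primrec.list_append.comp
        (prim_replicate.comp (Primrec.fst.comp (Primrec.fst.comp Primrec.fst)))
        (Primrec.list_take.comp (Primrec.snd.comp (Primrec.fst.comp Primrec.fst))
          (Primrec.snd.comp Primrec.snd)))
  exact Primrec.list_map Primrec.snd h.to₂

/-! ### evaluation -/

/-- value of the monomial with exponent vector `e`, unknowns `0, …, N - 1` -/
def mono (N : ℕ) (y : ℕ → ℕ) (e : List ℕ) : ℕ := ∏ i ∈ Finset.range N, y i ^ e.getD i 0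

def ev (N : ℕ) (y : ℕ → ℕ) (p : Poly) : ℤ := (p.map fun m => m.1 * (mono N y m.2 : ℤ)).sum

theorem getD_addExp (a b : List ℕ) (i : ℕ) :
    (addExp a b).getD i 0 = a.getD i 0 + b.getD i 0 := by
  unfold addExp
  by_cases h : i < max a.length b.length
  · rw [List.getD_eq_getElem _ _ (by simpa using h)]
    simp
  · rw [List.getD_eq_default _ _ (by simpa using h)]
    push Not at h
    rw [List.getD_eq_default a _ (le_trans (le_max_left _ _) h),
      List.getD_eq_default b _ (le_trans (le_max_right _ _) h)]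

theorem mono_addExp (N : ℕ) (y : ℕ → ℕ) (a b : List ℕ) :
    mono N y (addExp a b) = mono N y a * mono N y b := by
  unfold mono
  rw [← Finset.prod_mul_distrib]
  exact Finset.prod_congr rfl fun i _ => by rw [getD_addExp, pow_add]

theorem ev_append (N : ℕ) (y : ℕ → ℕ) (p q : Poly) : ev N y (p ++ q) = ev N y p + ev N y q := by
  simp [ev]

theorem ev_nil (N : ℕ) (y : ℕ → ℕ) : ev N y [] = 0 := by simp [ev]

theorem ev_cons (N : ℕ) (y : ℕ → ℕ) (a : ℤ × List ℕ) (p : Poly) :
    ev N y (a :: p) = a.1 * (mono N y a.2 : ℤ) + ev N y p := by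
  simp [ev]

theorem ev_pmul (N : ℕ) (y : ℕ → ℕ) (p q : Poly) : ev N y (pmul p q) = ev N y p * ev N y q := by
  induction p with
  | nil => simp [pmul, ev_nil]
  | cons a p ih =>
    have h1 : pmul (a :: p) q = (q.map fun b => (a.1 * b.1, addExp a.2 b.2)) ++ pmul p q := by
      simp [pmul]
    have h2 : ev N y (q.map fun b => (a.1 * b.1, addExp a.2 b.2)) =
        a.1 * (mono N y a.2 : ℤ) * ev N y q := by
      clear h1 ih
      induction q with
      | nil => simp [ev_nil]
      | cons b q ih =>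
        rw [List.map_cons, ev_cons, ih, ev_cons, mono_addExp]
        push_cast
        ring
    rw [h1, ev_append, ih, h2, ev_cons]
    ring

theorem ev_pneg (N : ℕ) (y : ℕ → ℕ) (p : Poly) : ev N y (pneg p) = -ev N y p := by
  induction p with
  | nil => simp [pneg, ev_nil]
  | cons a p ih =>
    have h1 : pneg (a :: p) = (-a.1, a.2) :: pneg p := by simp [pneg]
    rw [h1, ev_cons, ih, ev_cons]
    ring

theorem ev_psq (N : ℕ) (y : ℕ → ℕ) (p : Poly) : ev N y (psq p) = ev N y p ^ 2 := by
  rw [psq, ev_pmul, sq]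

theorem ev_pconst (N : ℕ) (y : ℕ → ℕ) (c : ℤ) : ev N y (pconst c) = c := by
  simp [pconst, ev, mono]

theorem ev_pvar (N : ℕ) (y : ℕ → ℕ) (i : ℕ) (h : i < N) : ev N y (pvar i) = y i := by
  have h1 : mono N y (List.replicate i 0 ++ [1]) = y i := by
    unfold mono
    rw [Finset.prod_eq_single i]
    · have : (List.replicate i 0 ++ [1]).getD i 0 = 1 := by
        simp [List.getD_eq_getElem?_getD]
      rw [this, pow_one]
    · intro j _ hj
      have : (List.replicate i 0 ++ [1]).getD j 0 = 0 := by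
        rcases lt_or_gt_of_ne hj with h1 | h1
        · rw [List.getD_append _ _ _ _ (by simpa using h1)]
          simp [List.getD_eq_getElem?_getD]
        · rw [List.getD_eq_default _ _ (by simp; omega)]
      rw [this, pow_zero]
    · intro h2
      exact absurd (Finset.mem_range.2 h) h2
  simp [pvar, ev, h1]

theorem ev_shift (N : ℕ) (y : ℕ → ℕ) (t n : ℕ) (h : t + n ≤ N) (p : Poly) :
    ev N y (shift t n p) = ev n (fun i => y (t + i)) p := by
  induction p with
  | nil => simp [shift, ev_nil]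
  | cons a p ih =>
    have h1 : shift t n (a :: p) = (a.1, List.replicate t 0 ++ a.2.take n) :: shift t n p := by
      simp [shift]
    have h2 : mono N y (List.replicate t 0 ++ a.2.take n) = mono n (fun i => y (t + i)) a.2 := by
      unfold mono
      have hN : N = t + (n + (N - t - n)) := by omega
      rw [hN, Finset.prod_range_add, Finset.prod_range_add]
      have e1 : ∏ x ∈ Finset.range t, y x ^ (List.replicate t 0 ++ a.2.take n).getD x 0 = 1 := by
        apply Finset.prod_eq_one
        intro i hi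
        have hi' : i < t := Finset.mem_range.1 hi
        rw [List.getD_append _ _ _ _ (by simpa using hi')]
        simp [List.getD_eq_getElem?_getD]
      have e2 : ∏ x ∈ Finset.range (N - t - n),
          y (t + (n + x)) ^ (List.replicate t 0 ++ a.2.take n).getD (t + (n + x)) 0 = 1 := by
        apply Finset.prod_eq_one
        intro i _
        rw [List.getD_eq_default _ _ (by
          simp only [List.length_append, List.length_replicate, List.length_take]; omega), pow_zero]
      rw [e1, e2, one_mul, mul_one]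
      apply Finset.prod_congr rfl
      intro i hi
      have hi' : i < n := Finset.mem_range.1 hi
      congr 1
      rw [List.getD_append_right _ _ _ _ (by simp)]
      simp [List.getD_eq_getElem?_getD, hi']
    rw [h1, ev_cons, ih, ev_cons, h2]


/-! ### solutions -/

def ext {n : ℕ} (x : Fin n → ℕ) (i : ℕ) : ℕ := if h : i < n then x ⟨i, h⟩ else 0

theorem ext_of_lt {n : ℕ} (x : Fin n → ℕ) {i : ℕ} (h : i < n) : ext x i = x ⟨i, h⟩ := dif_pos h

theorem value_eq (n : ℕ) (p : Poly) (x : Fin n → ℕ) : value n p x = ev n (ext x) p := by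
  have h : ∀ m : ℤ × List ℕ, m.1 * ∏ i : Fin n, (x i : ℤ) ^ m.2.getD i 0 =
      m.1 * (mono n (ext x) m.2 : ℤ) := by
    intro m
    congr 1
    unfold mono
    rw [Finset.prod_range]
    push_cast
    exact Finset.prod_congr rfl fun i _ => by rw [ext_of_lt x i.2]
  unfold value ev
  simp only [h]

theorem mono_congr {n : ℕ} {y z : ℕ → ℕ} (h : ∀ i < n, y i = z i) (e : List ℕ) :
    mono n y e = mono n z e :=
  Finset.prod_congr rfl fun i hi => by rw [h i (Finset.mem_range.1 hi)]

theorem ev_congr {n : ℕ} {y z : ℕ → ℕ} (h : ∀ i < n, y i = z i) (p : Poly) :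
    ev n y p = ev n z p := by
  unfold ev
  simp only [mono_congr h]

/-! ### codes of tuples -/

def codeP (t : ℕ) : ℕ → Poly
  | 0 => []
  | i + 1 => psq (codeP t i ++ pvar (t + i)) ++ codeP t i

def codeV (y : ℕ → ℕ) : ℕ → ℕ
  | 0 => 0
  | i + 1 => (codeV y i + y i) ^ 2 + codeV y i

theorem ev_codeP (N : ℕ) (y : ℕ → ℕ) (t n : ℕ) (h : t + n ≤ N) :
    ev N y (codeP t n) = codeV (fun i => y (t + i)) n := by
  induction n with
  | zero => simp [codeP, codeV, ev_nil]
  | succ n ih =>
    rw [codeP, codeV, ev_append, ev_psq, ev_append, ih (by omega), ev_pvar N y (t + n) (by omega)]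
    push_cast
    ring

theorem codeV_congr {y z : ℕ → ℕ} {n : ℕ} (h : ∀ i < n, y i = z i) : codeV y n = codeV z n := by
  induction n with
  | zero => rfl
  | succ n ih => rw [codeV, codeV, ih fun i hi => h i (by omega), h n (by omega)]

theorem pair_inj {a b c d : ℕ} (h : (a + b) ^ 2 + a = (c + d) ^ 2 + c) : a = c ∧ b = d := by
  have h1 : a + b = c + d := by
    by_contra hne
    rcases lt_or_gt_of_ne hne with h2 | h2
    · nlinarith
    · nlinarith
  rw [h1] at h
  constructor <;> omega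

theorem codeV_inj {y z : ℕ → ℕ} {n : ℕ} (h : codeV y n = codeV z n) : ∀ i < n, y i = z i := by
  induction n with
  | zero => intro i hi; omega
  | succ n ih =>
    intro i hi
    rw [codeV, codeV] at h
    obtain ⟨h1, h2⟩ := pair_inj h
    rcases Nat.lt_succ_iff_lt_or_eq.1 hi with h3 | h3
    · exact ih h1 i h3
    · rw [h3]; exact h2

/-- code of a tuple -/
def cd {n : ℕ} (x : Fin n → ℕ) : ℕ := codeV (ext x) n

theorem cd_inj {n : ℕ} {x y : Fin n → ℕ} (h : cd x = cd y) : x = y := by
  funext i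
  have := codeV_inj h i i.2
  rwa [ext_of_lt x i.2, ext_of_lt y i.2] at this

/-! ### the equation for increasing chains of `j` solutions -/

def prevP (n t : ℕ) : Poly := Nat.casesOn t (pconst (-1)) fun s => codeP (s * (n + 1)) n

def F (D : DEq) (t : ℕ) : Poly :=
  psq (shift (t * (D.1 + 1)) D.1 D.2) ++
    psq (codeP (t * (D.1 + 1)) D.1 ++ pneg (prevP D.1 t) ++
      pneg (pvar (t * (D.1 + 1) + D.1)) ++ pconst (-1))

def E (D : DEq) (j : ℕ) : DEq := (j * (D.1 + 1), (List.range j).flatMap (F D))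

/-- the `t`-th block of a point -/
def blk {N : ℕ} (n : ℕ) (X : Fin N → ℕ) (t : ℕ) : Fin n → ℕ := fun i => ext X (t * (n + 1) + i)

def prevV {N : ℕ} (n : ℕ) (X : Fin N → ℕ) (t : ℕ) : ℤ :=
  Nat.casesOn t (-1) fun s => (cd (blk n X s) : ℤ)

theorem cd_blk {N : ℕ} (n : ℕ) (X : Fin N → ℕ) (t : ℕ) :
    cd (blk n X t) = codeV (fun i => ext X (t * (n + 1) + i)) n := by
  unfold cd
  apply codeV_congr
  intro i hi
  rw [ext_of_lt _ hi]
  rfl

theorem ev_prevP {N : ℕ} (n : ℕ) (X : Fin N → ℕ) (t : ℕ) (h : t * (n + 1) ≤ N) :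
    ev N (ext X) (prevP n t) = prevV n X t := by
  cases t with
  | zero => exact ev_pconst _ _ _
  | succ s =>
    change ev N (ext X) (codeP (s * (n + 1)) n) = (cd (blk n X s) : ℤ)
    rw [ev_codeP _ _ _ _ (by nlinarith), cd_blk]

theorem ev_F {N : ℕ} (D : DEq) (X : Fin N → ℕ) (t : ℕ) (h : (t + 1) * (D.1 + 1) ≤ N) :
    ev N (ext X) (F D t) = (value D.1 D.2 (blk D.1 X t)) ^ 2 +
      ((cd (blk D.1 X t) : ℤ) - prevV D.1 X t - ext X (t * (D.1 + 1) + D.1) - 1) ^ 2 := by
  have h0 : (t + 1) * (D.1 + 1) = t * (D.1 + 1) + D.1 + 1 := by ring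
  rw [h0] at h
  rw [F, ev_append, ev_psq, ev_psq, ev_append, ev_append, ev_append, ev_pneg, ev_pneg,
    ev_pconst, ev_pvar _ _ _ (by omega), ev_prevP _ _ _ (by omega), ev_codeP _ _ _ _ (by omega),
    ev_shift _ _ _ _ (by omega), cd_blk, value_eq]
  congr 2
  · apply ev_congr
    intro i hi
    rw [ext_of_lt _ hi]
    rfl

theorem ev_flatMap (N : ℕ) (y : ℕ → ℕ) (l : List ℕ) (f : ℕ → Poly) :
    ev N y (l.flatMap f) = (l.map fun t => ev N y (f t)).sum := by
  induction l with
  | nil => simp [ev_nil]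
  | cons a l ih => rw [List.flatMap_cons, ev_append, ih, List.map_cons, List.sum_cons]

theorem sum_range_list (f : ℕ → ℤ) (j : ℕ) :
    ((List.range j).map f).sum = ∑ t ∈ Finset.range j, f t := by
  induction j with
  | zero => simp
  | succ j ih => rw [List.range_succ, List.map_append, List.sum_append, ih,
      Finset.sum_range_succ]; simp

theorem mem_Sol_E (D : DEq) (j : ℕ) (X : Fin (j * (D.1 + 1)) → ℕ) :
    X ∈ Sol (E D j) ↔ ∀ t < j, blk D.1 X t ∈ Sol D ∧
      (cd (blk D.1 X t) : ℤ) = prevV D.1 X t + ext X (t * (D.1 + 1) + D.1) + 1 := by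
  have h1 : X ∈ Sol (E D j) ↔ value (j * (D.1 + 1)) ((List.range j).flatMap (F D)) X = 0 :=
    Iff.rfl
  rw [h1, value_eq, ev_flatMap]
  have h2 : ((List.range j).map fun t => ev (j * (D.1 + 1)) (ext X) (F D t)).sum =
      ∑ t ∈ Finset.range j, ev (j * (D.1 + 1)) (ext X) (F D t) := sum_range_list _ _
  rw [h2, Finset.sum_eq_zero_iff_of_nonneg]
  · constructor
    · intro h t ht
      have h3 := h t (Finset.mem_range.2 ht)
      rw [ev_F D X t (Nat.mul_le_mul_right _ ht)] at h3
      have h4 := (add_eq_zero_iff_of_nonneg (sq_nonneg _) (sq_nonneg _)).1 h3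
      refine ⟨pow_eq_zero_iff (two_ne_zero) |>.1 h4.1, ?_⟩
      have h5 := pow_eq_zero_iff (two_ne_zero) |>.1 h4.2
      linarith
    · intro h t ht
      have ht' := Finset.mem_range.1 ht
      obtain ⟨h3, h4⟩ := h t ht'
      rw [ev_F D X t (Nat.mul_le_mul_right _ ht')]
      have h5 : value D.1 D.2 (blk D.1 X t) = 0 := h3
      rw [h5, h4]
      ring
  · intro t ht
    rw [ev_F D X t (Nat.mul_le_mul_right _ (Finset.mem_range.1 ht))]
    positivity


theorem chain_step {D : DEq} {j : ℕ} {X : Fin (j * (D.1 + 1)) → ℕ} (hX : X ∈ Sol (E D j))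
    {t : ℕ} (ht : t + 1 < j) : cd (blk D.1 X t) < cd (blk D.1 X (t + 1)) := by
  have h := (((mem_Sol_E D j X).1 hX) (t + 1) ht).2
  have h1 : prevV D.1 X (t + 1) = (cd (blk D.1 X t) : ℤ) := rfl
  rw [h1] at h
  omega

theorem chain_lt {D : DEq} {j : ℕ} {X : Fin (j * (D.1 + 1)) → ℕ} (hX : X ∈ Sol (E D j))
    {s t : ℕ} (hst : s < t) (ht : t < j) : cd (blk D.1 X s) < cd (blk D.1 X t) := by
  induction t with
  | zero => omega
  | succ t ih =>
    rcases Nat.lt_succ_iff_lt_or_eq.1 hst with h | h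
    · exact (ih h (by omega)).trans (chain_step hX ht)
    · rw [h]; exact chain_step hX ht

theorem chain_strictMono {D : DEq} {j : ℕ} {X : Fin (j * (D.1 + 1)) → ℕ} (hX : X ∈ Sol (E D j)) :
    StrictMono fun t : Fin j => cd (blk D.1 X t) := fun _ t hst => chain_lt hX hst t.2

theorem chain_mem {D : DEq} {j : ℕ} {X : Fin (j * (D.1 + 1)) → ℕ} (hX : X ∈ Sol (E D j))
    (t : Fin j) : blk D.1 X t ∈ Sol D := (((mem_Sol_E D j X).1 hX) t t.2).1

/-- codes of a finite set of tuples -/
noncomputable def codes {n : ℕ} (S : Finset (Fin n → ℕ)) : Finset ℕ := S.image cd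

theorem card_codes {n : ℕ} (S : Finset (Fin n → ℕ)) : (codes S).card = S.card :=
  Finset.card_image_of_injective _ fun _ _ h => cd_inj h

/-- fewer than `j` solutions: no chain -/
theorem Sol_E_empty {D : DEq} {S : Finset (Fin D.1 → ℕ)} (hS : Sol D = S) {j : ℕ}
    (hj : S.card < j) : Sol (E D j) = ∅ := by
  rw [Set.eq_empty_iff_forall_notMem]
  intro X hX
  have h1 : (Finset.univ.image fun t : Fin j => blk D.1 X t) ⊆ S := by
    intro x hx
    obtain ⟨t, _, rfl⟩ := Finset.mem_image.1 hx
    have := chain_mem hX t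
    rw [hS] at this
    exact this
  have h2 : Function.Injective fun t : Fin j => blk D.1 X t := by
    intro s t hst
    exact (chain_strictMono hX).injective (congrArg cd hst)
  have h3 := Finset.card_le_card h1
  rw [Finset.card_image_of_injective _ h2, Finset.card_univ, Fintype.card_fin] at h3
  omega

theorem chain_eq {D : DEq} {S : Finset (Fin D.1 → ℕ)} (hS : Sol D = S) {j : ℕ}
    (hj : S.card = j) {X : Fin (j * (D.1 + 1)) → ℕ} (hX : X ∈ Sol (E D j)) (t : Fin j) :
    cd (blk D.1 X t) = (codes S).orderEmbOfFin ((card_codes S).trans hj) t := by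
  have h := Finset.orderEmbOfFin_unique ((card_codes S).trans hj)
    (f := fun t : Fin j => cd (blk D.1 X t)) (fun t => by
      apply Finset.mem_image_of_mem
      have := chain_mem hX t
      rw [hS] at this
      exact this) (chain_strictMono hX)
  exact congrFun h t

theorem Sol_E_subsingleton {D : DEq} {S : Finset (Fin D.1 → ℕ)} (hS : Sol D = S) {j : ℕ}
    (hj : S.card = j) {X Y : Fin (j * (D.1 + 1)) → ℕ} (hX : X ∈ Sol (E D j))
    (hY : Y ∈ Sol (E D j)) : X = Y := by
  have h1 : ∀ t < j, blk D.1 X t = blk D.1 Y t := by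
    intro t ht
    apply cd_inj
    rw [chain_eq hS hj hX ⟨t, ht⟩, chain_eq hS hj hY ⟨t, ht⟩]
  have h2 : ∀ t < j, prevV D.1 X t = prevV D.1 Y t := by
    intro t ht
    cases t with
    | zero => rfl
    | succ s =>
      change (cd (blk D.1 X s) : ℤ) = cd (blk D.1 Y s)
      rw [h1 s (by omega)]
  funext q
  have hq := q.2
  have hpos : 0 < D.1 + 1 := Nat.succ_pos _
  have h3 : (q : ℕ) / (D.1 + 1) < j := Nat.div_lt_of_lt_mul (by have := Nat.mul_comm j (D.1 + 1); omega)
  have h4 : (q : ℕ) / (D.1 + 1) * (D.1 + 1) + (q : ℕ) % (D.1 + 1) = q := Nat.div_add_mod' _ _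
  have h5 := Nat.mod_lt (q : ℕ) hpos
  have key : ext X q = ext Y q := by
    rw [← h4]
    rcases Nat.lt_succ_iff_lt_or_eq.1 h5 with h6 | h6
    · exact congrFun (h1 _ h3) ⟨_, h6⟩
    · rw [h6]
      have e1 := (((mem_Sol_E D j X).1 hX) _ h3).2
      have e2 := (((mem_Sol_E D j Y).1 hY) _ h3).2
      rw [h1 _ h3, h2 _ h3] at e1
      omega
  rwa [ext_of_lt X hq, ext_of_lt Y hq] at key

theorem chain_surj {D : DEq} {S : Finset (Fin D.1 → ℕ)} (hS : Sol D = S) {j : ℕ}
    (hj : S.card = j) {X : Fin (j * (D.1 + 1)) → ℕ} (hX : X ∈ Sol (E D j))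
    {x : Fin D.1 → ℕ} (hx : x ∈ Sol D) : ∃ t : Fin j, blk D.1 X t = x := by
  have h1 : cd x ∈ codes S := Finset.mem_image_of_mem _ (by rw [hS] at hx; exact hx)
  have h2 : cd x ∈ Set.range ((codes S).orderEmbOfFin ((card_codes S).trans hj)) := by
    rw [Finset.range_orderEmbOfFin]; exact h1
  obtain ⟨t, ht⟩ := h2
  exact ⟨t, cd_inj ((chain_eq hS hj hX t).trans ht)⟩

theorem le_height {n : ℕ} (x : Fin n → ℕ) (i : Fin n) : x i ≤ height x :=
  Finset.le_sup (f := x) (Finset.mem_univ i)

theorem ext_le_height {n : ℕ} (x : Fin n → ℕ) (i : ℕ) : ext x i ≤ height x := by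
  unfold ext
  split_ifs with h
  · exact le_height x _
  · exact Nat.zero_le _

theorem height_blk {N : ℕ} (n : ℕ) (X : Fin N → ℕ) (t : ℕ) : height (blk n X t) ≤ height X :=
  Finset.sup_le fun _ _ => ext_le_height _ _

theorem Sol_E_nonempty {D : DEq} {S : Finset (Fin D.1 → ℕ)} (hS : Sol D = S) {j : ℕ}
    (hj : S.card = j) : (Sol (E D j)).Nonempty := by
  classical
  set e := (codes S).orderEmbOfFin ((card_codes S).trans hj) with he
  have h1 : ∀ t : Fin j, ∃ x ∈ S, cd x = e t := by
    intro t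
    have : e t ∈ codes S := Finset.orderEmbOfFin_mem _ _ t
    obtain ⟨x, hx, hx'⟩ := Finset.mem_image.1 this
    exact ⟨x, hx, hx'⟩
  choose s hs hs' using h1
  let z : ℕ → ℕ := fun t => if h : t < j then
    (if h0 : 0 < t then e ⟨t, h⟩ - e ⟨t - 1, by omega⟩ - 1 else e ⟨t, h⟩) else 0
  let X : Fin (j * (D.1 + 1)) → ℕ := fun q =>
    if h : (q : ℕ) % (D.1 + 1) < D.1 then
      s ⟨(q : ℕ) / (D.1 + 1), Nat.div_lt_of_lt_mul (by have := Nat.mul_comm j (D.1 + 1); omega)⟩ ⟨_, h⟩
    else z ((q : ℕ) / (D.1 + 1))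
  have hpos : 0 < D.1 + 1 := Nat.succ_pos _
  have hb : ∀ t (ht : t < j), blk D.1 X t = s ⟨t, ht⟩ := by
    intro t ht
    funext i
    have hi := i.2
    have h2 : t * (D.1 + 1) + i < j * (D.1 + 1) := by nlinarith
    have h3 : (t * (D.1 + 1) + i) % (D.1 + 1) = i := by
      rw [Nat.mul_comm, Nat.mul_add_mod, Nat.mod_eq_of_lt (by omega)]
    have h4 : (t * (D.1 + 1) + i) / (D.1 + 1) = t := by
      rw [mul_comm, Nat.mul_add_div hpos, Nat.div_eq_of_lt (by omega), add_zero]
    change ext X (t * (D.1 + 1) + i) = _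
    rw [ext_of_lt X h2]
    change (if h : (t * (D.1 + 1) + (i : ℕ)) % (D.1 + 1) < D.1 then _ else _) = _
    have h5 : (t * (D.1 + 1) + (i : ℕ)) % (D.1 + 1) < D.1 := by rw [h3]; exact hi
    rw [dif_pos h5]
    exact congrArg₂ (fun a b => s a b) (Fin.ext h4) (Fin.ext h3)
  have hz : ∀ t (ht : t < j), ext X (t * (D.1 + 1) + D.1) = z t := by
    intro t ht
    have h2 : t * (D.1 + 1) + D.1 < j * (D.1 + 1) := by nlinarith
    have h3 : (t * (D.1 + 1) + D.1) % (D.1 + 1) = D.1 := by
      rw [Nat.mul_comm, Nat.mul_add_mod, Nat.mod_eq_of_lt (by omega)]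
    have h4 : (t * (D.1 + 1) + D.1) / (D.1 + 1) = t := by
      rw [mul_comm, Nat.mul_add_div hpos, Nat.div_eq_of_lt (by omega), add_zero]
    rw [ext_of_lt X h2]
    change (if h : (t * (D.1 + 1) + D.1) % (D.1 + 1) < D.1 then _ else _) = _
    rw [dif_neg (by rw [h3]; exact lt_irrefl _)]
    change z ((t * (D.1 + 1) + D.1) / (D.1 + 1)) = z t
    rw [h4]
  refine ⟨X, (mem_Sol_E D j X).2 fun t ht => ⟨?_, ?_⟩⟩
  · rw [hb t ht, hS]
    exact hs ⟨t, ht⟩
  · rw [hb t ht, hz t ht, hs']
    cases t with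
    | zero =>
      change ((e ⟨0, ht⟩ : ℕ) : ℤ) = -1 + (z 0 : ℤ) + 1
      have : z 0 = e ⟨0, ht⟩ := by
        change (if h : 0 < j then _ else _) = _
        rw [dif_pos ht, dif_neg (lt_irrefl 0)]
      rw [this]; ring
    | succ t =>
      have h6 : prevV D.1 X (t + 1) = (e ⟨t, by omega⟩ : ℕ) := by
        change (cd (blk D.1 X t) : ℤ) = _
        rw [hb t (by omega), hs']
      have h7 : z (t + 1) = e ⟨t + 1, ht⟩ - e ⟨t, by omega⟩ - 1 := by
        change (if h : t + 1 < j then _ else _) = _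
        rw [dif_pos ht, dif_pos (Nat.succ_pos t)]
        rfl
      have h8 : e ⟨t, by omega⟩ < e ⟨t + 1, ht⟩ := e.strictMono (Fin.mk_lt_mk.2 (Nat.lt_succ_self t))
      rw [h6, h7]
      omega


/-! ### computability of the transformation -/

theorem prim_codeP : Primrec₂ codeP := by
  have h : Primrec₂ fun (t n : ℕ) => (Nat.rec (motive := fun _ => Poly) []
      (fun i IH => psq (IH ++ pvar (t + i)) ++ IH) n : Poly) := by
    refine Primrec.nat_rec (f := fun _ : ℕ => ([] : Poly))
      (g := fun t q => psq (q.2 ++ pvar (t + q.1)) ++ q.2) (Primrec.const []) ?_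
    have a1 : Primrec fun q : ℕ × ℕ × Poly => q.2.2 := Primrec.snd.comp Primrec.snd
    have a2 : Primrec fun q : ℕ × ℕ × Poly => pvar (q.1 + q.2.1) :=
      prim_pvar.comp (Primrec.nat_add.comp Primrec.fst (Primrec.fst.comp Primrec.snd))
    exact Primrec.list_append.comp (prim_psq.comp (Primrec.list_append.comp a1 a2)) a1
  refine h.of_eq fun t n => ?_
  induction n with
  | zero => rfl
  | succ n ih => rw [codeP, ← ih]

theorem prim_prevP : Primrec₂ prevP := by
  have h2 : Primrec₂ fun (q : ℕ × ℕ) (s : ℕ) => codeP (s * (q.1 + 1)) q.1 :=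
    prim_codeP.comp (Primrec.nat_mul.comp Primrec.snd
      (Primrec.succ.comp (Primrec.fst.comp Primrec.fst))) (Primrec.fst.comp Primrec.fst)
  exact Primrec.nat_casesOn (f := fun q : ℕ × ℕ => q.2) (g := fun _ => pconst (-1))
    Primrec.snd (Primrec.const _) h2

theorem prim_F : Primrec₂ F := by
  have n1 : Primrec fun q : DEq × ℕ => q.1.1 := Primrec.fst.comp Primrec.fst
  have t1 : Primrec fun q : DEq × ℕ => q.2 * (q.1.1 + 1) :=
    Primrec.nat_mul.comp Primrec.snd (Primrec.succ.comp n1)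
  have s1 : Primrec fun q : DEq × ℕ => shift (q.2 * (q.1.1 + 1)) q.1.1 q.1.2 :=
    prim_shift.comp (Primrec.pair (Primrec.pair t1 n1) (Primrec.snd.comp Primrec.fst))
  have c1 : Primrec fun q : DEq × ℕ => codeP (q.2 * (q.1.1 + 1)) q.1.1 := prim_codeP.comp t1 n1
  have p1 : Primrec fun q : DEq × ℕ => pneg (prevP q.1.1 q.2) :=
    prim_pneg.comp (prim_prevP.comp n1 Primrec.snd)
  have v1 : Primrec fun q : DEq × ℕ => pneg (pvar (q.2 * (q.1.1 + 1) + q.1.1)) :=
    prim_pneg.comp (prim_pvar.comp (Primrec.nat_add.comp t1 n1))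
  exact Primrec.list_append.comp (prim_psq.comp s1)
    (prim_psq.comp (Primrec.list_append.comp (Primrec.list_append.comp
      (Primrec.list_append.comp c1 p1) v1) (Primrec.const (pconst (-1)))))

theorem prim_E : Primrec₂ E := by
  refine Primrec.pair (Primrec.nat_mul.comp Primrec.snd
    (Primrec.succ.comp (Primrec.fst.comp Primrec.fst))) ?_
  exact Primrec.list_flatMap (Primrec.list_range.comp Primrec.snd)
    (prim_F.comp (Primrec.fst.comp Primrec.fst) Primrec.snd)

/-! ### bounded search -/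

def tup (c : ℕ) (N : ℕ) : List (List ℕ) :=
  Nat.rec (motive := fun _ => List (List ℕ)) [[]]
    (fun _ IH => IH.flatMap fun l => (List.range c).map fun a => a :: l) N

theorem mem_tup (c N : ℕ) (l : List ℕ) : l ∈ tup c N ↔ l.length = N ∧ ∀ a ∈ l, a < c := by
  induction N generalizing l with
  | zero =>
    change l ∈ [[]] ↔ _
    rw [List.mem_singleton]
    constructor
    · rintro rfl; simp
    · rintro ⟨h, _⟩; exact List.length_eq_zero_iff.1 h
  | succ N ih =>
    change l ∈ (tup c N).flatMap (fun l => (List.range c).map fun a => a :: l) ↔ _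
    rw [List.mem_flatMap]
    constructor
    · rintro ⟨m, hm, hl⟩
      obtain ⟨a, ha, rfl⟩ := List.mem_map.1 hl
      obtain ⟨h1, h2⟩ := (ih m).1 hm
      refine ⟨by simp [h1], fun b hb => ?_⟩
      rcases List.mem_cons.1 hb with rfl | hb
      · exact List.mem_range.1 ha
      · exact h2 b hb
    · rintro ⟨h1, h2⟩
      cases l with
      | nil => simp at h1
      | cons a m =>
        refine ⟨m, (ih m).2 ⟨by simpa using h1, fun b hb => h2 b (List.mem_cons_of_mem _ hb)⟩, ?_⟩
        exact List.mem_map.2 ⟨a, List.mem_range.2 (h2 a List.mem_cons_self), rfl⟩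

theorem prim_tup : Primrec₂ tup := by
  have h1 : Primrec fun q : (ℕ × (ℕ × List (List ℕ))) × List ℕ =>
      (List.range q.1.1).map fun a => a :: q.2 :=
    Primrec.list_map (Primrec.list_range.comp (Primrec.fst.comp Primrec.fst))
      (Primrec.list_cons.comp Primrec.snd (Primrec.snd.comp Primrec.fst)).to₂
  refine Primrec.nat_rec (f := fun _ : ℕ => ([[]] : List (List ℕ)))
    (g := fun c q => q.2.flatMap fun l => (List.range c).map fun a => a :: l)
    (Primrec.const _) ?_
  exact Primrec.list_flatMap (Primrec.snd.comp Primrec.snd) h1.to₂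

theorem prim_mono : Primrec fun q : (ℕ × List ℕ) × List ℕ =>
    mono q.1.1 (fun i => q.1.2.getD i 0) q.2 := by
  have h1 : Primrec fun q : (ℕ × List ℕ) × List ℕ =>
      ((List.range q.1.1).map fun i => q.1.2.getD i 0 ^ q.2.getD i 0).prod := by
    refine prim_prod.comp (Primrec.list_map (Primrec.list_range.comp
      (Primrec.fst.comp Primrec.fst)) ?_)
    exact prim_pow.comp ((Primrec.list_getD 0).comp
      (Primrec.snd.comp (Primrec.fst.comp Primrec.fst)) Primrec.snd)
      ((Primrec.list_getD 0).comp (Primrec.snd.comp Primrec.fst) Primrec.snd)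
  refine h1.of_eq fun q => ?_
  unfold mono
  induction q.1.1 with
  | zero => simp
  | succ n ih => rw [List.range_succ, List.map_append, List.prod_append, ih,
      Finset.prod_range_succ]; simp

theorem prim_ev : Primrec fun q : (ℕ × List ℕ) × Poly =>
    ev q.1.1 (fun i => q.1.2.getD i 0) q.2 := by
  refine prim_sum.comp (Primrec.list_map Primrec.snd ?_)
  exact prim_mul.comp (Primrec.fst.comp Primrec.snd)
    (prim_natCast.comp (prim_mono.comp (Primrec.pair (Primrec.fst.comp Primrec.fst)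
      (Primrec.snd.comp Primrec.snd))))

def srch (D : DEq) (b : ℤ) : Prop :=
  ∃ l ∈ tup b.toNat D.1, ev D.1 (fun i => l.getD i 0) D.2 = 0

attribute [local irreducible] ev tup

theorem prim_ev' : Primrec fun q : List ℕ × DEq => ev q.2.1 (fun i => q.1.getD i 0) q.2.2 := by
  have g0 : Primrec fun q : List ℕ × DEq => (((q.2.1, q.1), q.2.2) : (ℕ × List ℕ) × Poly) :=
    Primrec.pair (Primrec.pair (Primrec.fst.comp Primrec.snd) Primrec.fst)
      (Primrec.snd.comp Primrec.snd)
  exact prim_ev.comp g0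

theorem prim_evz : PrimrecRel fun (l : List ℕ) (D : DEq) =>
    ev D.1 (fun i => l.getD i 0) D.2 = 0 :=
  Primrec.eq.comp prim_ev' (Primrec.const 0)

theorem prim_srch1 : PrimrecRel fun (L : List (List ℕ)) (D : DEq) =>
    ∃ l ∈ L, ev D.1 (fun i => l.getD i 0) D.2 = 0 := PrimrecRel.exists_mem_list prim_evz

theorem prim_srch : PrimrecRel srch := by
  have h3 : Primrec fun q : DEq × ℤ => tup q.2.toNat q.1.1 :=
    prim_tup.comp (prim_toNat.comp Primrec.snd) (Primrec.fst.comp Primrec.fst)
  have h4 : Primrec fun q : DEq × ℤ => q.1 := Primrec.fst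
  exact prim_srch1.comp h3 h4

theorem srch_iff (D : DEq) (b : ℤ) : srch D b ↔ ∃ x ∈ Sol D, ∀ i, x i < b.toNat := by
  constructor
  · rintro ⟨l, hl, h⟩
    obtain ⟨h1, h2⟩ := (mem_tup _ _ _).1 hl
    refine ⟨fun i => l.getD i 0, ?_, fun i => ?_⟩
    · change value D.1 D.2 _ = 0
      rw [value_eq, ← h]
      apply ev_congr
      intro i hi
      rw [ext_of_lt _ hi]
    · apply h2
      change l.getD i 0 ∈ l
      rw [List.getD_eq_getElem _ _ (by rw [h1]; exact i.2)]
      exact List.getElem_mem _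
  · rintro ⟨x, hx, h⟩
    refine ⟨List.ofFn x, (mem_tup _ _ _).2 ⟨List.length_ofFn, fun a ha => ?_⟩, ?_⟩
    · obtain ⟨i, rfl⟩ := (List.mem_ofFn' _ _).1 ha
      exact h i
    · have hx' : value D.1 D.2 x = 0 := hx
      rw [value_eq] at hx'
      rw [← hx']
      apply ev_congr
      intro i hi
      rw [ext_of_lt _ hi, List.getD_eq_getElem _ _ (by simpa using hi)]
      simp


/-! ### the algorithm -/

open Classical in
/-- one step: state `inl b` means that a bound has been found -/
noncomputable def step (B : DEq →. ℤ) (a : DEq × ℕ) (q : ℕ × (ℤ ⊕ Unit)) : Part (ℤ ⊕ Unit) :=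
  Sum.casesOn (motive := fun _ => Part (ℤ ⊕ Unit)) q.2 (fun b => Part.some (Sum.inl b))
    (fun _ => (B (E a.1 (a.2 - q.1))).map fun b =>
      if srch (E a.1 (a.2 - q.1)) b then Sum.inl b else Sum.inr ())

noncomputable def run (B : DEq →. ℤ) (a : DEq × ℕ) (i : ℕ) : Part (ℤ ⊕ Unit) :=
  Nat.rec (motive := fun _ => Part (ℤ ⊕ Unit)) (Part.some (Sum.inr ()))
    (fun y IH => IH.bind fun s => step B a (y, s)) i

noncomputable def alg (B : DEq →. ℤ) (a : DEq × ℕ) : Part ℤ :=
  (run B a a.2).map fun s => Sum.casesOn (motive := fun _ => ℤ) s (fun b => b) (fun _ => 1)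

theorem part_step {B : DEq →. ℤ} (hB : Partrec B) : Partrec₂ (step B) := by
  classical
  have e1 : Computable fun q : ((DEq × ℕ) × (ℕ × (ℤ ⊕ Unit))) × Unit =>
      E q.1.1.1 (q.1.1.2 - q.1.2.1) := by
    have : Primrec fun q : ((DEq × ℕ) × (ℕ × (ℤ ⊕ Unit))) × Unit =>
        E q.1.1.1 (q.1.1.2 - q.1.2.1) :=
      prim_E.comp (Primrec.fst.comp (Primrec.fst.comp Primrec.fst))
        (Primrec.nat_sub.comp (Primrec.snd.comp (Primrec.fst.comp Primrec.fst))
          (Primrec.fst.comp (Primrec.snd.comp Primrec.fst)))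
    exact this.to_comp
  have e2 : Computable fun q : (((DEq × ℕ) × (ℕ × (ℤ ⊕ Unit))) × Unit) × ℤ =>
      (if srch (E q.1.1.1.1 (q.1.1.1.2 - q.1.1.2.1)) q.2 then Sum.inl q.2 else Sum.inr () :
        ℤ ⊕ Unit) := by
    have e0 : Primrec fun q : (((DEq × ℕ) × (ℕ × (ℤ ⊕ Unit))) × Unit) × ℤ =>
        E q.1.1.1.1 (q.1.1.1.2 - q.1.1.2.1) :=
      prim_E.comp (Primrec.fst.comp (Primrec.fst.comp (Primrec.fst.comp Primrec.fst)))
        (Primrec.nat_sub.comp (Primrec.snd.comp (Primrec.fst.comp (Primrec.fst.comp Primrec.fst)))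
          (Primrec.fst.comp (Primrec.snd.comp (Primrec.fst.comp Primrec.fst))))
    have e3 : PrimrecPred fun q : (((DEq × ℕ) × (ℕ × (ℤ ⊕ Unit))) × Unit) × ℤ =>
        srch (E q.1.1.1.1 (q.1.1.1.2 - q.1.1.2.1)) q.2 := prim_srch.comp e0 Primrec.snd
    exact (Primrec.ite e3 (Primrec.sumInl.comp Primrec.snd)
      (Primrec.const (Sum.inr ()))).to_comp
  have e4 : Partrec fun q : ((DEq × ℕ) × (ℕ × (ℤ ⊕ Unit))) × Unit =>
      (B (E q.1.1.1 (q.1.1.2 - q.1.2.1))).map fun b =>
        (if srch (E q.1.1.1 (q.1.1.2 - q.1.2.1)) b then Sum.inl b else Sum.inr () :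
        ℤ ⊕ Unit) := (hB.comp e1).map e2
  exact Partrec.sumCasesOn_right (f := fun q : (DEq × ℕ) × (ℕ × (ℤ ⊕ Unit)) => q.2.2)
    (Computable.snd.comp Computable.snd) (Computable.sumInl.comp Computable.snd).to₂ e4

theorem part_alg {B : DEq →. ℤ} (hB : Partrec B) : Partrec (alg B) := by
  have h1 : Partrec fun a : DEq × ℕ => run B a a.2 :=
    Partrec.nat_rec (f := fun a : DEq × ℕ => a.2) (g := fun _ => Part.some (Sum.inr ()))
      Computable.snd (Computable.const (Sum.inr ())) (part_step hB)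
  have h2 : Computable fun q : (DEq × ℕ) × (ℤ ⊕ Unit) =>
      Sum.casesOn (motive := fun _ => ℤ) q.2 (fun b => b) (fun _ => 1) :=
    Computable.sumCasesOn Computable.snd Computable.snd.to₂ (Computable.const 1).to₂
  exact h1.map h2


/-! ### correctness -/

theorem run_succ (B : DEq →. ℤ) (a : DEq × ℕ) (i : ℕ) :
    run B a (i + 1) = (run B a i).bind fun s => step B a (i, s) := rfl

theorem run_mono {B : DEq →. ℤ} {a : DEq × ℕ} {i : ℕ} {b : ℤ} (h : Sum.inl b ∈ run B a i) :
    ∀ j, i ≤ j → Sum.inl b ∈ run B a j := by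
  intro j hj
  induction j, hj using Nat.le_induction with
  | base => exact h
  | succ j _ ih =>
    rw [run_succ]
    exact Part.mem_bind ih (Part.mem_some _)

theorem run_inr {B : DEq →. ℤ} (hB : HeightBounder 2 B) {D : DEq} {S : Finset (Fin D.1 → ℕ)}
    (hS : Sol D = S) (k : ℕ) : ∀ i, i ≤ k - S.card → Sum.inr () ∈ run B (D, k) i := by
  classical
  intro i
  induction i with
  | zero => intro _; exact Part.mem_some _
  | succ i ih =>
    intro hi
    rw [run_succ]
    refine Part.mem_bind (ih (by omega)) ?_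
    have h1 : S.card < k - i := by omega
    have h2 : Sol (E D (k - i)) = ∅ := Sol_E_empty hS h1
    obtain ⟨b, hb, _⟩ := hB.2 (E D (k - i)) (by rw [h2]; simp)
    have h3 : ¬ srch (E D (k - i)) b := by
      rw [srch_iff, h2]
      rintro ⟨x, hx, _⟩
      exact hx
    refine (Part.mem_map_iff _).2 ⟨b, hb, ?_⟩
    exact if_neg h3

theorem alg_spec {B : DEq →. ℤ} (hB : HeightBounder 2 B) {D : DEq} {k : ℕ}
    (hD : (Sol D).encard ≤ k) : ∃ b ∈ alg B (D, k), ∀ x ∈ Sol D, (height x : ℤ) < b := by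
  classical
  have hfin : (Sol D).Finite := Set.finite_of_encard_le_coe hD
  obtain ⟨S, hS⟩ := hfin.exists_finset_coe
  have hS' : Sol D = S := hS.symm
  have hk : S.card ≤ k := by
    rw [hS', Set.encard_coe_eq_coe_finsetCard] at hD
    exact_mod_cast hD
  have h1 : Sum.inr () ∈ run B (D, k) (k - S.card) := run_inr hB hS' k _ le_rfl
  rcases Nat.eq_zero_or_pos S.card with h0 | h0
  · rw [h0, Nat.sub_zero] at h1
    refine ⟨1, (Part.mem_map_iff _).2 ⟨_, h1, rfl⟩, ?_⟩
    intro x hx
    rw [hS', Finset.card_eq_zero.1 h0] at hx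
    simp at hx
  · have hne := Sol_E_nonempty hS' (j := S.card) rfl
    obtain ⟨X, hX⟩ := hne
    have hle : (Sol (E D S.card)).encard ≤ 1 := by
      rw [Set.encard_le_one_iff]
      intro Y Z hY hZ
      exact Sol_E_subsingleton hS' rfl hY hZ
    obtain ⟨b, hb, hb'⟩ := hB.2 (E D S.card) (lt_of_le_of_lt hle (by norm_num))
    have hXb : (height X : ℤ) < b := hb' X hX
    have hs : srch (E D S.card) b := by
      rw [srch_iff]
      refine ⟨X, hX, fun i => ?_⟩
      have := le_height X i
      omega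
    have h2 : Sum.inl b ∈ run B (D, k) (k - S.card + 1) := by
      rw [run_succ]
      refine Part.mem_bind h1 ?_
      have h3 : k - (k - S.card) = S.card := by omega
      change Sum.inl b ∈ (B (E D (k - (k - S.card)))).map fun b =>
        if srch (E D (k - (k - S.card))) b then (Sum.inl b : ℤ ⊕ Unit) else Sum.inr ()
      rw [h3]
      exact (Part.mem_map_iff _).2 ⟨b, hb, if_pos hs⟩
    have h4 : Sum.inl b ∈ run B (D, k) k := run_mono h2 k (by omega)
    refine ⟨b, (Part.mem_map_iff _).2 ⟨_, h4, rfl⟩, ?_⟩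
    intro x hx
    obtain ⟨t, rfl⟩ := chain_surj hS' rfl hX hx
    exact lt_of_le_of_lt (by exact_mod_cast height_blk D.1 X t) hXb


/-! ### from two allowed numbers of solutions to at most one solution -/

def fallP (n : ℕ) : ℕ → Poly
  | 0 => pconst 1
  | r + 1 => pmul (fallP n r) (pvar n ++ pconst (-(r : ℤ)))

theorem ev_fallP (N : ℕ) (y : ℕ → ℕ) (n r : ℕ) (h : n < N) :
    ev N y (fallP n r) = ∏ s ∈ Finset.range r, ((y n : ℤ) - s) := by
  induction r with
  | zero => simp [fallP, ev_pconst]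
  | succ r ih =>
    rw [fallP, ev_pmul, ev_append, ev_pvar _ _ _ h, ev_pconst, ih, Finset.prod_range_succ]
    ring

theorem ev_fallP_eq_zero (N : ℕ) (y : ℕ → ℕ) (n r : ℕ) (h : n < N) :
    ev N y (fallP n r) = 0 ↔ y n < r := by
  rw [ev_fallP N y n r h, Finset.prod_eq_zero_iff]
  constructor
  · rintro ⟨s, hs, h1⟩
    have := Finset.mem_range.1 hs
    omega
  · intro h1
    exact ⟨y n, Finset.mem_range.2 h1, sub_self _⟩

theorem prim_fallP : Primrec₂ fallP := by
  have h : Primrec₂ fun (n r : ℕ) => (Nat.rec (motive := fun _ => Poly) (pconst 1)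
      (fun i IH => pmul IH (pvar n ++ pconst (-(i : ℤ)))) r : Poly) := by
    refine Primrec.nat_rec (f := fun _ : ℕ => pconst 1)
      (g := fun n q => pmul q.2 (pvar n ++ pconst (-(q.1 : ℤ)))) (Primrec.const _) ?_
    have a1 : Primrec fun q : ℕ × ℕ × Poly => q.2.2 := Primrec.snd.comp Primrec.snd
    have a2 : Primrec fun q : ℕ × ℕ × Poly => pconst (-(q.2.1 : ℤ)) :=
      prim_pconst.comp (prim_neg.comp (prim_natCast.comp (Primrec.fst.comp Primrec.snd)))
    exact prim_pmul.comp a1 (Primrec.list_append.comp (prim_pvar.comp Primrec.fst) a2)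
  refine h.of_eq fun n r => ?_
  induction r with
  | zero => rfl
  | succ r ih => rw [fallP, ← ih]

def sqs (n : ℕ) : Poly := (List.range n).flatMap fun i => psq (pvar i)

theorem ev_sqs (N : ℕ) (y : ℕ → ℕ) (n : ℕ) (h : n ≤ N) :
    ev N y (sqs n) = ∑ i ∈ Finset.range n, (y i : ℤ) ^ 2 := by
  rw [sqs, ev_flatMap, sum_range_list]
  apply Finset.sum_congr rfl
  intro i hi
  have := Finset.mem_range.1 hi
  rw [ev_psq, ev_pvar _ _ _ (by omega)]

theorem prim_sqs : Primrec sqs :=
  Primrec.list_flatMap Primrec.list_range (prim_psq.comp (prim_pvar.comp Primrec.snd))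

def T (m d : ℕ) (D : DEq) : DEq :=
  (D.1 + 2, pmul (psq (pvar (D.1 + 1)) ++ sqs D.1 ++ psq (fallP D.1 m))
    (psq (pvar (D.1 + 1) ++ pconst (-1)) ++ psq (shift 0 D.1 D.2) ++ psq (fallP D.1 d)))

theorem prim_T (m d : ℕ) : Primrec (T m d) := by
  have n1 : Primrec fun D : DEq => D.1 := Primrec.fst
  have v1 : Primrec fun D : DEq => pvar (D.1 + 1) := prim_pvar.comp (Primrec.succ.comp n1)
  have s1 : Primrec fun D : DEq => shift 0 D.1 D.2 :=
    prim_shift.comp (Primrec.pair (Primrec.pair (Primrec.const 0) n1) Primrec.snd)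
  have f1 : Primrec fun D : DEq => psq (fallP D.1 m) :=
    prim_psq.comp (prim_fallP.comp n1 (Primrec.const m))
  have f2 : Primrec fun D : DEq => psq (fallP D.1 d) :=
    prim_psq.comp (prim_fallP.comp n1 (Primrec.const d))
  exact Primrec.pair (Primrec.succ.comp (Primrec.succ.comp n1))
    (prim_pmul.comp
      (Primrec.list_append.comp (Primrec.list_append.comp (prim_psq.comp v1)
        (prim_sqs.comp n1)) f1)
      (Primrec.list_append.comp (Primrec.list_append.comp
        (prim_psq.comp (Primrec.list_append.comp v1 (Primrec.const (pconst (-1)))))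
        (prim_psq.comp s1)) f2))

def mk {n : ℕ} (x : Fin n → ℕ) (u v : ℕ) : Fin (n + 2) → ℕ := fun i =>
  if h : (i : ℕ) < n then x ⟨i, h⟩ else if (i : ℕ) = n then u else v

theorem mk_lt {n : ℕ} (x : Fin n → ℕ) (u v : ℕ) {i : ℕ} (h : i < n) :
    mk x u v ⟨i, by omega⟩ = x ⟨i, h⟩ := dif_pos h

theorem mk_n {n : ℕ} (x : Fin n → ℕ) (u v : ℕ) : mk x u v ⟨n, by omega⟩ = u := by
  change (if h : n < n then _ else if n = n then u else v) = u
  rw [dif_neg (lt_irrefl n), if_pos rfl]

theorem mk_n1 {n : ℕ} (x : Fin n → ℕ) (u v : ℕ) : mk x u v ⟨n + 1, by omega⟩ = v := by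
  change (if h : n + 1 < n then _ else if n + 1 = n then u else v) = v
  rw [dif_neg (by omega), if_neg (by omega)]

theorem mk_inj {n : ℕ} {x x' : Fin n → ℕ} {u u' v v' : ℕ} (h : mk x u v = mk x' u' v') :
    x = x' ∧ u = u' ∧ v = v' := by
  refine ⟨?_, ?_, ?_⟩
  · funext i
    have := congrFun h ⟨i, by omega⟩
    rwa [mk_lt x u v i.2, mk_lt x' u' v' i.2] at this
  · have := congrFun h ⟨n, by omega⟩
    rwa [mk_n, mk_n] at this
  · have := congrFun h ⟨n + 1, by omega⟩
    rwa [mk_n1, mk_n1] at this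

theorem mk_surj {n : ℕ} (X : Fin (n + 2) → ℕ) :
    X = mk (fun i : Fin n => X ⟨i, by omega⟩) (X ⟨n, by omega⟩) (X ⟨n + 1, by omega⟩) := by
  funext i
  rcases i with ⟨i, hi⟩
  rcases lt_trichotomy i n with h | h | h
  · rw [mk_lt _ _ _ h]
  · subst h; rw [mk_n]
  · have : i = n + 1 := by omega
    subst this; rw [mk_n1]

theorem mem_Sol_T (m d : ℕ) (D : DEq) (x : Fin D.1 → ℕ) (u v : ℕ) :
    mk x u v ∈ Sol (T m d D) ↔ (v = 0 ∧ (∀ i, x i = 0) ∧ u < m) ∨ (v = 1 ∧ x ∈ Sol D ∧ u < d) := by
  have e0 : mk x u v ∈ Sol (T m d D) ↔ ev (D.1 + 2) (ext (mk x u v)) (T m d D).2 = 0 := by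
    rw [← value_eq]; rfl
  have x1 : ext (mk x u v) (D.1 + 1) = v := by
    rw [ext_of_lt _ (by omega), mk_n1]
  have x2 : ext (mk x u v) D.1 = u := by
    rw [ext_of_lt _ (by omega), mk_n]
  have x3 : ∀ i (hi : i < D.1), ext (mk x u v) i = x ⟨i, hi⟩ := by
    intro i hi
    rw [ext_of_lt _ (by omega), mk_lt x u v hi]
  have x4 : ev (D.1 + 2) (ext (mk x u v)) (shift 0 D.1 D.2) = value D.1 D.2 x := by
    rw [ev_shift _ _ _ _ (by omega), value_eq]
    apply ev_congr
    intro i hi
    rw [zero_add, x3 i hi, ext_of_lt _ hi]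
  rw [e0]
  change ev (D.1 + 2) (ext (mk x u v)) (pmul (psq (pvar (D.1 + 1)) ++ sqs D.1 ++
    psq (fallP D.1 m)) (psq (pvar (D.1 + 1) ++ pconst (-1)) ++ psq (shift 0 D.1 D.2) ++
    psq (fallP D.1 d))) = 0 ↔ _
  rw [ev_pmul, mul_eq_zero]
  apply or_congr
  · rw [ev_append, ev_append, ev_psq, ev_psq, ev_pvar _ _ _ (by omega), x1,
      ev_sqs _ _ _ (by omega)]
    have p2 : 0 ≤ ∑ i ∈ Finset.range D.1, (ext (mk x u v) i : ℤ) ^ 2 :=
      Finset.sum_nonneg fun i _ => sq_nonneg _
    have p3 := sq_nonneg (ev (D.1 + 2) (ext (mk x u v)) (fallP D.1 m))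
    have p1 := sq_nonneg (v : ℤ)
    constructor
    · intro h
      have h1 : (v : ℤ) ^ 2 = 0 := by linarith
      have h2 : ∑ i ∈ Finset.range D.1, (ext (mk x u v) i : ℤ) ^ 2 = 0 := by linarith
      have h3 : ev (D.1 + 2) (ext (mk x u v)) (fallP D.1 m) ^ 2 = 0 := by linarith
      refine ⟨?_, ?_, ?_⟩
      · exact_mod_cast pow_eq_zero_iff two_ne_zero |>.1 h1
      · intro i
        have h4 := (Finset.sum_eq_zero_iff_of_nonneg fun i _ => sq_nonneg _).1 h2 i
          (Finset.mem_range.2 i.2)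
        have h5 := pow_eq_zero_iff two_ne_zero |>.1 h4
        rw [x3 i i.2] at h5
        exact_mod_cast h5
      · rw [← x2]
        exact (ev_fallP_eq_zero _ _ _ _ (by omega)).1 (pow_eq_zero_iff two_ne_zero |>.1 h3)
    · rintro ⟨h1, h2, h3⟩
      rw [(ev_fallP_eq_zero _ _ _ _ (by omega)).2 (by rw [x2]; exact h3),
        Finset.sum_eq_zero, h1]
      · simp
      · intro i hi
        rw [x3 i (Finset.mem_range.1 hi), h2]
        simp
  · rw [ev_append, ev_append, ev_psq, ev_psq, ev_psq, ev_append, ev_pvar _ _ _ (by omega), x1,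
      ev_pconst, x4]
    have p3 := sq_nonneg (ev (D.1 + 2) (ext (mk x u v)) (fallP D.1 d))
    have p2 := sq_nonneg (value D.1 D.2 x)
    have p1 := sq_nonneg ((v : ℤ) + -1)
    constructor
    · intro h
      have h1 : ((v : ℤ) + -1) ^ 2 = 0 := by linarith
      have h2 : (value D.1 D.2 x) ^ 2 = 0 := by linarith
      have h3 : ev (D.1 + 2) (ext (mk x u v)) (fallP D.1 d) ^ 2 = 0 := by linarith
      refine ⟨?_, ?_, ?_⟩
      · have := pow_eq_zero_iff two_ne_zero |>.1 h1
        omega
      · exact pow_eq_zero_iff two_ne_zero |>.1 h2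
      · rw [← x2]
        exact (ev_fallP_eq_zero _ _ _ _ (by omega)).1 (pow_eq_zero_iff two_ne_zero |>.1 h3)
    · rintro ⟨h1, h2, h3⟩
      have h2' : value D.1 D.2 x = 0 := h2
      rw [(ev_fallP_eq_zero _ _ _ _ (by omega)).2 (by rw [x2]; exact h3), h2', h1]
      simp

/-- the solutions of `T m d D`, as a set of functions on `Fin (D.1 + 2)` -/
def ST (m d : ℕ) (D : DEq) : Set (Fin (D.1 + 2) → ℕ) := Sol (T m d D)

theorem mem_ST (m d : ℕ) (D : DEq) (x : Fin D.1 → ℕ) (u v : ℕ) :
    mk x u v ∈ ST m d D ↔ (v = 0 ∧ (∀ i, x i = 0) ∧ u < m) ∨ (v = 1 ∧ x ∈ Sol D ∧ u < d) :=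
  mem_Sol_T m d D x u v

theorem ST_eq (m d : ℕ) (D : DEq) : ST m d D =
    (fun u : ℕ => mk (fun _ : Fin D.1 => 0) u 0) '' (Finset.range m : Set ℕ) ∪
    (fun p : (Fin D.1 → ℕ) × ℕ => mk p.1 p.2 1) '' (Sol D ×ˢ (Finset.range d : Set ℕ)) := by
  ext X
  obtain ⟨x, u, v, rfl⟩ : ∃ x u v, X = mk x u v := ⟨_, _, _, mk_surj X⟩
  rw [mem_ST]
  constructor
  · rintro (⟨h1, h2, h3⟩ | ⟨h1, h2, h3⟩)
    · left
      refine ⟨u, Finset.mem_coe.2 (Finset.mem_range.2 h3), ?_⟩
      have h4 : x = fun _ => 0 := funext h2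
      rw [h1, h4]
    · right
      refine ⟨(x, u), ⟨h2, Finset.mem_coe.2 (Finset.mem_range.2 h3)⟩, ?_⟩
      rw [h1]
  · rintro (⟨u', hu, h⟩ | ⟨⟨x', u'⟩, ⟨hx, hu⟩, h⟩)
    · obtain ⟨h1, h2, h3⟩ := mk_inj h
      left
      refine ⟨h3.symm, fun i => (congrFun h1 i).symm, ?_⟩
      rw [← h2]
      exact Finset.mem_range.1 (Finset.mem_coe.1 hu)
    · obtain ⟨h1, h2, h3⟩ := mk_inj h
      right
      refine ⟨h3.symm, ?_, ?_⟩
      · rw [← h1]; exact hx
      · rw [← h2]
        exact Finset.mem_range.1 (Finset.mem_coe.1 hu)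

theorem encard_ST (m d : ℕ) (D : DEq) : (ST m d D).encard = m + (Sol D).encard * d := by
  rw [ST_eq, Set.encard_union_eq, Function.Injective.encard_image, Function.Injective.encard_image,
    Set.encard_prod, Set.encard_coe_eq_coe_finsetCard, Set.encard_coe_eq_coe_finsetCard,
    Finset.card_range, Finset.card_range]
  · rintro ⟨x, u⟩ ⟨x', u'⟩ h
    obtain ⟨h1, h2, _⟩ := mk_inj h
    exact Prod.ext h1 h2
  · intro u u' h
    exact (mk_inj h).2.1
  · rw [Set.disjoint_left]
    rintro _ ⟨u, _, rfl⟩ ⟨⟨x, u'⟩, _, h⟩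
    have := (mk_inj h).2.2
    omega


/-- The following are equivalent: (1) there is a `2`-height bounder; (2) for every finite `κ` there
is a `κ`-height bounder; (3) there is an algorithm which, given `D` and `k`, bounds the heights of
the solutions of `D` whenever `D` has at most `k` solutions; (4) for every finite set `K` there is
an algorithm which bounds the heights of the solutions of every equation whose number of solutions
is in `K`; (5) the same for some set `K` of natural numbers with at least two elements. -/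
theorem result : List.TFAE
    [∃ B, HeightBounder 2 B,
     ∀ κ : ℕ, ∃ B, HeightBounder κ B,
     ∃ U : DEq × ℕ →. ℤ, Partrec U ∧
       ∀ (D : DEq) (k : ℕ), (Sol D).encard ≤ k → BoundsAt (fun D' => U (D', k)) D,
     ∀ K : Set ℕ, K.Finite → ∃ B, Bounder K B,
     ∃ K : Set ℕ, K.Nontrivial ∧ ∃ B, Bounder K B] := by
  tfae_have 1 → 3 := by
    rintro ⟨B, hB⟩
    exact ⟨alg B, part_alg hB.1, fun D k hD => alg_spec hB hD⟩
  tfae_have 3 → 2 := by
    rintro ⟨U, hU, hU'⟩ κ
    refine ⟨fun D => U (D, κ - 1), hU.comp (Computable.pair Computable.id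
      (Computable.const _)), fun D hD => hU' D (κ - 1) ?_⟩
    have h0 : (Sol D).Finite := Set.finite_of_encard_le_coe hD.le
    rw [← h0.cast_ncard_eq] at hD ⊢
    have h1 : (Sol D).ncard < κ := by exact_mod_cast hD
    have h2 : (Sol D).ncard ≤ κ - 1 := by omega
    exact_mod_cast h2
  tfae_have 2 → 4 := by
    intro h K hK
    obtain ⟨M, hM⟩ := hK.bddAbove
    obtain ⟨B, hB⟩ := h (M + 1)
    refine ⟨B, hB.1, fun D ⟨k, hk, hD⟩ => hB.2 D ?_⟩
    rw [hD]
    have : k < M + 1 := Nat.lt_succ_of_le (hM hk)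
    exact_mod_cast this
  tfae_have 4 → 5 := by
    intro h
    refine ⟨{0, 1}, ⟨0, by simp, 1, by simp, by simp⟩, h _ (Set.toFinite _)⟩
  tfae_have 5 → 1 := by
    rintro ⟨K, hK, B, hB⟩
    obtain ⟨m, hm, m', hm', hlt⟩ : ∃ m ∈ K, ∃ m' ∈ K, m < m' := by
      obtain ⟨a, ha, b, hb, hab⟩ := hK
      rcases lt_or_gt_of_ne hab with h | h
      · exact ⟨a, ha, b, hb, h⟩
      · exact ⟨b, hb, a, ha, h⟩
    refine ⟨fun D => B (T m (m' - m) D), hB.1.comp (prim_T m (m' - m)).to_comp, fun D hD => ?_⟩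
    have h1 : (ST m (m' - m) D).encard = m + (Sol D).encard * (m' - m : ℕ) := encard_ST _ _ _
    have h2 : ∃ k ∈ K, (Sol (T m (m' - m) D)).encard = k := by
      have h3 : (Sol D).encard ≤ 1 := by
        have : (Sol D).encard < 1 + 1 := by simpa [one_add_one_eq_two] using hD
        exact Order.le_of_lt_add_one this
      rcases Order.le_one_iff.1 h3 with h4 | h4
      · refine ⟨m, hm, ?_⟩
        change (ST m (m' - m) D).encard = m
        rw [h1, h4]; simp
      · refine ⟨m', hm', ?_⟩
        change (ST m (m' - m) D).encard = m'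
        rw [h1, h4, one_mul]
        have : m + (m' - m) = m' := by omega
        exact_mod_cast this
    obtain ⟨b, hb, hb'⟩ := hB.2 _ h2
    refine ⟨b, hb, fun x hx => lt_of_le_of_lt ?_ (hb' (mk x 0 1)
      ((mem_ST m (m' - m) D x 0 1).2 (Or.inr ⟨rfl, hx, by omega⟩)))⟩
    have h5 : height x ≤ height (mk x 0 1) := by
      refine Finset.sup_le fun i _ => ?_
      rw [← mk_lt x 0 1 i.2]
      exact le_height (mk x 0 1) _
    exact_mod_cast h5
  tfae_finish

end Pool.Agent.Results.MP_4a2a1b_lc.FiniteCollapse
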